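import Pool.Agent.N343.TC.Stm

/-!
# TC/GLUE: gluing two `C¹` functions along a common boundary gives a Lipschitz function
-/

set_option autoImplicit false

open Set Filter Topology Metric

namespace Pool.Agent.N296.TC

open Pool.Agent.N343.TC

/-- near every point of an open set a `C¹` function is Lipschitz on a ball -/
theorem c1_ball {U : Set ℂ} {g : ℂ → ℝ} (hU : IsOpen U) (hg : ContDiffOn ℝ 1 g U) {x : ℂ}
    (hx : x ∈ U) : ∃ (L : NNReal) (r : ℝ), 0 < r ∧ LipschitzOnWith L g (ball x r) := by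
  have h1 : ContDiffAt ℝ 1 g x := hg.contDiffAt (hU.mem_nhds hx)
  obtain ⟨L, t, ht, hL⟩ := h1.exists_lipschitzOnWith
  obtain ⟨r, hr, hrt⟩ := Metric.mem_nhds_iff.1 ht
  exact ⟨L, r, hr, hL.mono hrt⟩

theorem main : S_GLUE := by
  intro K₁ K₂ U₁ U₂ g₁ g₂ g hK₁ hK₂ hU₁ hU₂ hKU₁ hKU₂ hg₁ hg₂ he₁ he₂ hint
  refine LocallyLipschitzOn.exists_lipschitzOnWith_of_compact (hK₁.union hK₂) ?_
  -- points of one of the two sets only
  have one : ∀ (A B U : Set ℂ) (f : ℂ → ℝ), IsClosed B → IsOpen U → A ⊆ U →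
      ContDiffOn ℝ 1 f U → EqOn g f A → ∀ x ∈ A, x ∉ B →
      ∃ L : NNReal, ∃ t ∈ 𝓝[A ∪ B] x, LipschitzOnWith L g t := by
    intro A B U f hB hU hAU hf hgf x hxA hxB
    obtain ⟨L, r, hr, hL⟩ := c1_ball hU hf (hAU hxA)
    refine ⟨L, ball x r ∩ Bᶜ ∩ (A ∪ B), ?_, ?_⟩
    · exact inter_mem (mem_nhdsWithin_of_mem_nhds
        (inter_mem (ball_mem_nhds x hr) (hB.isOpen_compl.mem_nhds hxB))) self_mem_nhdsWithin
    · intro y hy z hz
      have hyA : y ∈ A := hy.2.resolve_right hy.1.2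
      have hzA : z ∈ A := hz.2.resolve_right hz.1.2
      rw [hgf hyA, hgf hzA]
      exact hL hy.1.1 hz.1.1
  intro x hx
  by_cases h1 : x ∈ K₁
  · by_cases h2 : x ∈ K₂
    · -- a common point
      obtain ⟨L₁, r₁, hr₁, hL₁⟩ := c1_ball hU₁ hg₁ (hKU₁ h1)
      obtain ⟨L₂, r₂, hr₂, hL₂⟩ := c1_ball hU₂ hg₂ (hKU₂ h2)
      obtain ⟨r₃, hr₃, hB⟩ := Metric.isOpen_iff.1 isOpen_interior x (hint ⟨h1, h2⟩)
      have hsub : ball x r₃ ⊆ K₁ ∪ K₂ := hB.trans interior_subset
      set r := min r₁ (min r₂ r₃) with hr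
      have hr0 : 0 < r := lt_min hr₁ (lt_min hr₂ hr₃)
      have b1 : ball x r ⊆ ball x r₁ := ball_subset_ball (min_le_left _ _)
      have b2 : ball x r ⊆ ball x r₂ :=
        ball_subset_ball ((min_le_right _ _).trans (min_le_left _ _))
      have b3 : ball x r ⊆ ball x r₃ :=
        ball_subset_ball ((min_le_right _ _).trans (min_le_right _ _))
      set L : NNReal := max L₁ L₂ with hLdef
      have d1 : ∀ y ∈ ball x r, ∀ z ∈ ball x r, dist (g₁ y) (g₁ z) ≤ L * dist y z := by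
        intro y hy z hz
        refine ((hL₁.dist_le_mul y (b1 hy) z (b1 hz))).trans ?_
        exact mul_le_mul_of_nonneg_right (by exact_mod_cast le_max_left L₁ L₂) dist_nonneg
      have d2 : ∀ y ∈ ball x r, ∀ z ∈ ball x r, dist (g₂ y) (g₂ z) ≤ L * dist y z := by
        intro y hy z hz
        refine ((hL₂.dist_le_mul y (b2 hy) z (b2 hz))).trans ?_
        exact mul_le_mul_of_nonneg_right (by exact_mod_cast le_max_right L₁ L₂) dist_nonneg
      have mixed : ∀ y ∈ ball x r, ∀ z ∈ ball x r, y ∈ K₁ → z ∈ K₂ →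
          dist (g y) (g z) ≤ L * dist y z := by
        intro y hy z hz hy1 hz2
        have hseg : segment ℝ y z ⊆ ball x r := (convex_ball x r).segment_subset hy hz
        have hpre : IsPreconnected (segment ℝ y z) := (convex_segment y z).isPreconnected
        obtain ⟨p, hp, hp1, hp2⟩ := isPreconnected_closed_iff.1 hpre K₁ K₂ hK₁.isClosed
          hK₂.isClosed ((hseg.trans b3).trans hsub) ⟨y, left_mem_segment ℝ y z, hy1⟩
          ⟨z, right_mem_segment ℝ y z, hz2⟩
        have e1 : g y = g₁ y := he₁ hy1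
        have e2 : g z = g₂ z := he₂ hz2
        have e3 : g₁ p = g₂ p := (he₁ hp1).symm.trans (he₂ hp2)
        have hd : dist y p + dist p z = dist y z := dist_add_dist_of_mem_segment hp
        calc dist (g y) (g z) = dist (g₁ y) (g₂ z) := by rw [e1, e2]
          _ ≤ dist (g₁ y) (g₁ p) + dist (g₂ p) (g₂ z) := by
            rw [← e3]
            exact (dist_triangle _ (g₁ p) _)
          _ ≤ L * dist y p + L * dist p z :=
            add_le_add (d1 y hy p (hseg hp)) (d2 p (hseg hp) z hz)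
          _ = L * dist y z := by rw [← mul_add, hd]
      refine ⟨L, ball x r, mem_nhdsWithin_of_mem_nhds (ball_mem_nhds x hr0), ?_⟩
      refine LipschitzOnWith.of_dist_le_mul ?_
      intro y hy z hz
      rcases hsub (b3 hy) with hy1 | hy2
      · rcases hsub (b3 hz) with hz1 | hz2
        · rw [he₁ hy1, he₁ hz1]
          exact d1 y hy z hz
        · exact mixed y hy z hz hy1 hz2
      · rcases hsub (b3 hz) with hz1 | hz2
        · rw [dist_comm (g y), dist_comm y]
          exact mixed z hz y hy hz1 hy2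
        · rw [he₂ hy2, he₂ hz2]
          exact d2 y hy z hz
    · exact one K₁ K₂ U₁ g₁ hK₂.isClosed hU₁ hKU₁ hg₁ he₁ x h1 h2
  · have h2 : x ∈ K₂ := hx.resolve_left h1
    obtain ⟨L, t, ht, hL⟩ := one K₂ K₁ U₂ g₂ hK₁.isClosed hU₂ hKU₂ hg₂ he₂ x h2 h1
    rw [union_comm] at ht
    exact ⟨L, t, ht, hL⟩

end Pool.Agent.N296.TC
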